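import Pool.Agent.Helper93.TCU.Stmts
import Pool.Agent.Helper45.Vu.IT

/-!
# SAMP: the final transversal with tests (section 7c of `TC10_helper93.md`)
-/

set_option autoImplicit false

namespace Pool.TCU

open Pool.TC Pool.TCM Pool.TCS Finset
open scoped Classical

/-- enumeration of the lists -/
private theorem samp_enum {V κ : Type} [Nonempty κ] (U : Finset V) (L : V → Finset κ) (l : ℕ)
    (hL : ∀ u ∈ U, (L u).card = l) :
    ∃ e : V → Fin l → κ, (∀ u ∈ U, ∀ t, e u t ∈ L u) ∧
      (∀ u ∈ U, ∀ g : κ → ℝ, ∑ t, g (e u t) = ∑ b ∈ L u, g b) := by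
  refine ⟨fun u t => if h : u ∈ U then (((L u).equivFinOfCardEq (hL u h)).symm t : κ)
    else Classical.arbitrary κ, ?_, ?_⟩
  · intro u hu t
    simp only [hu, dif_pos]
    exact (((L u).equivFinOfCardEq (hL u hu)).symm t).2
  · intro u hu g
    simp only [hu, dif_pos]
    rw [Equiv.sum_comp ((L u).equivFinOfCardEq (hL u hu)).symm (fun x : L u => g x)]
    exact Finset.sum_coe_sort (L u) g

/-- the sum over all letters of all samples -/
private theorem samp_sum {V κ Q : Type} [Fintype V] [Fintype Q] (pr : Q → V) (n : ℕ)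
    (hpr : ∀ w, (univ.filter (fun t => pr t = w)).card = n) (U : Finset V) (L : V → Finset κ)
    (l : ℕ) (e : V → Fin l → κ) (he : ∀ u ∈ U, ∀ g : κ → ℝ, ∑ t, g (e u t) = ∑ b ∈ L u, g b)
    (F : V → κ → ℝ) :
    ∑ t : Q, ∑ s : Fin l, (if pr t ∈ U then F (pr t) (e (pr t) s) else 0) =
      n * nm U L F := by
  rw [← Finset.sum_fiberwise univ pr]
  unfold nm
  have h1 : ∀ w : V, ∑ t ∈ univ.filter (fun t => pr t = w), ∑ s : Fin l,
      (if pr t ∈ U then F (pr t) (e (pr t) s) else 0) =
      n * (if w ∈ U then ∑ b ∈ L w, F w b else 0) := by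
    intro w
    have h2 : ∀ t ∈ univ.filter (fun t => pr t = w), ∑ s : Fin l,
        (if pr t ∈ U then F (pr t) (e (pr t) s) else 0) =
        if w ∈ U then ∑ b ∈ L w, F w b else 0 := by
      intro t ht
      rw [(mem_filter.1 ht).2]
      by_cases hw : w ∈ U
      · simp only [hw, if_true]
        exact he w hw (fun b => F w b)
      · simp only [hw, if_false, sum_const_zero]
    rw [sum_congr rfl h2, sum_const, hpr, nsmul_eq_mul]
  simp only [h1]
  rw [← mul_sum, ← sum_filter]
  congr 1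
  apply sum_congr _ fun _ _ => rfl
  ext w
  simp

/-- the probability that a sum over all samples is large -/
private theorem samp_bern (hB : Pool.TCT.St_BernL) {V κ Q : Type} [Fintype V] [Fintype Q]
    (pr : Q → V) (n : ℕ) (hpr : ∀ w, (univ.filter (fun t => pr t = w)).card = n) (U : Finset V)
    (L : V → Finset κ) (l : ℕ) (hl : 0 < l) (e : V → Fin l → κ)
    (he : ∀ u ∈ U, ∀ g : κ → ℝ, ∑ t, g (e u t) = ∑ b ∈ L u, g b) (F : V → κ → ℝ) (c W Lam : ℝ)
    (hF0 : ∀ w b, 0 ≤ F w b) (hF1 : ∀ w b, F w b ≤ c) (hc : 0 < c) (hLam : 0 < Lam)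
    (hW : Lam * c ^ 2 ≤ W) (hW2 : c * (n * nm U L F) ≤ W * l) :
    ((univ.filter (fun ω : Q → Fin l => n * nm U L F / l + 3 * Real.sqrt (W * Lam) ≤
      ∑ t, (if pr t ∈ U then F (pr t) (e (pr t) (ω t)) else 0))).card : ℝ) ≤
      Real.exp (-Lam) * Fintype.card (Q → Fin l) := by
  haveI : Nonempty (Fin l) := Fin.pos_iff_nonempty.1 hl
  have h1 := hB Q (Fin l) (fun t s => if pr t ∈ U then F (pr t) (e (pr t) s) else 0) c W Lam
    hc hLam hW ?_ ?_
  · rw [samp_sum pr n hpr U L l e he F, Fintype.card_fin] at h1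
    exact h1
  · intro t s
    by_cases ht : pr t ∈ U
    · simp only [ht, if_true]
      rw [abs_of_nonneg (hF0 _ _)]
      exact hF1 _ _
    · simp only [ht, if_false, abs_zero]
      exact hc.le
  · rw [Fintype.card_fin]
    refine le_trans ?_ hW2
    rw [← samp_sum pr n hpr U L l e he F, mul_sum]
    refine sum_le_sum fun t _ => ?_
    rw [mul_sum]
    refine sum_le_sum fun s _ => ?_
    by_cases ht : pr t ∈ U
    · simp only [ht, if_true]
      rw [pow_two]
      exact mul_le_mul_of_nonneg_right (hF1 _ _) (hF0 _ _)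
    · simp only [ht, if_false]
      norm_num

/-- the conflicts of one cell -/
private noncomputable def confF {V κ : Type} (R : V → κ → V → κ → Prop) (u : V) (a : κ) (w : V)
    (b : κ) : ℝ := if w ≠ u ∧ R u a w b then 1 else 0

private theorem confF_nonneg {V κ : Type} (R : V → κ → V → κ → Prop) (u : V) (a : κ) (w : V)
    (b : κ) : 0 ≤ confF R u a w b := by
  unfold confF
  split_ifs <;> norm_num

private theorem confF_le {V κ : Type} (R : V → κ → V → κ → Prop) (u : V) (a : κ) (w : V)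
    (b : κ) : confF R u a w b ≤ 1 := by
  unfold confF
  split_ifs <;> norm_num

private theorem confF_nm {V κ : Type} [Fintype V] [Fintype κ] (U : Finset V) (L : V → Finset κ)
    (R : V → κ → V → κ → Prop) (u : V) (a : κ) :
    nm U L (confF R u a) = ((univ.filter (fun p : V × κ => p.1 ∈ U ∧ p.1 ≠ u ∧ p.2 ∈ L p.1 ∧
      R u a p.1 p.2)).card : ℝ) := by
  unfold nm confF
  rw [card_filter]
  push_cast
  rw [Fintype.sum_prod_type]
  have h1 : ∀ w : V, (∑ b : κ, if w ∈ U ∧ w ≠ u ∧ b ∈ L w ∧ R u a w b then (1 : ℝ) else 0) =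
      if w ∈ U then ∑ b ∈ L w, (if w ≠ u ∧ R u a w b then (1 : ℝ) else 0) else 0 := by
    intro w
    by_cases hw : w ∈ U
    · simp only [hw, true_and, if_true]
      rw [← sum_filter_add_sum_filter_not univ (fun b => b ∈ L w)]
      have h2 : (∑ b ∈ univ.filter (fun b => b ∉ L w),
          if w ≠ u ∧ b ∈ L w ∧ R u a w b then (1 : ℝ) else 0) = 0 := by
        apply sum_eq_zero
        intro b hb
        rw [mem_filter] at hb
        simp [hb.2]
      rw [h2, add_zero]
      have h3 : univ.filter (fun b => b ∈ L w) = L w := by ext b; simp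
      rw [h3]
      apply sum_congr rfl
      intro b hb
      simp [hb]
    · simp [hw]
  simp only [h1]
  rw [← sum_filter]
  apply sum_congr _ fun _ _ => rfl
  ext w
  simp

private theorem samp_num {n l k Lam : ℝ} (hn : 100 * Lam ≤ n) (hLam : 1 ≤ Lam) (hl : 0 < l)
    (hk : 8 * k ≤ l) :
    n * k / l + 3 * Real.sqrt (n / 8 * Lam) ≤ n / 4 := by
  have hn0 : 0 < n := by linarith
  have h1 : n * k / l ≤ n / 8 := by
    rw [div_le_div_iff₀ hl (by norm_num)]
    nlinarith
  have h2 : Real.sqrt (n / 8 * Lam) ≤ n / 24 := by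
    rw [Real.sqrt_le_left (by positivity)]
    nlinarith
  linarith

/-- the local lemma -/
private theorem samp_core (hB : Pool.TCT.St_BernL) (hL : Pool.TCS.St_LLL0) {V κ J Q : Type}
    [Fintype V] [Fintype κ] [Fintype J] [Fintype Q] (pr : Q → V) (n : ℕ)
    (hpr : ∀ w, (univ.filter (fun t => pr t = w)).card = n)
    (U : Finset V) (L : V → Finset κ) (R : V → κ → V → κ → Prop) (nb : V → V → Prop)
    (l N Mu : ℕ) (Lam : ℝ) (ctr : J → V) (T : J → V → κ → ℝ) (μ : J → ℝ) (hl : 0 < l)
    (e : V → Fin l → κ) (he2 : ∀ u ∈ U, ∀ g : κ → ℝ, ∑ t, g (e u t) = ∑ b ∈ L u, g b)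
    (hcard : ∀ u ∈ U, (L u).card = l)
    (hRn : ∀ u a w b, R u a w b → nb u w) (hns : ∀ u w, nb u w → nb w u)
    (hN : ∀ u, (univ.filter (fun w => nb u w)).card ≤ N)
    (h8 : ∀ u ∈ U, ∀ a ∈ L u, 8 * (univ.filter (fun p : V × κ => p.1 ∈ U ∧ p.1 ≠ u ∧
      p.2 ∈ L p.1 ∧ R u a p.1 p.2)).card ≤ l)
    (hT0 : ∀ j w b, 0 ≤ T j w b) (hT1 : ∀ j w b, T j w b ≤ μ j)
    (hTl : ∀ j w b, T j w b ≠ 0 → nb (ctr j) w)
    (hMu : ∀ v, (univ.filter (fun j => ctr j = v)).card ≤ Mu) (hLam : 1 ≤ Lam)
    (hn : 100 * Lam ≤ n)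
    (hexp : 4 * Real.exp (-Lam) * ((N : ℝ) ^ 2 * (l + Mu) + 1) ≤ 1) :
    ∃ ω : Q → Fin l,
      (∀ u ∈ U, ∀ a ∈ L u, ∑ t, (if pr t ∈ U then confF R u a (pr t) (e (pr t) (ω t)) else 0) <
        (n : ℝ) / 4) ∧
      ∀ j, 0 < μ j → ∑ t, (if pr t ∈ U then T j (pr t) (e (pr t) (ω t)) else 0) ≤
        n * nm U L (T j) / l +
        3 * Real.sqrt ((n * μ j * nm U L (T j) / l + Lam * μ j ^ 2) * Lam) := by
  haveI : Nonempty (Fin l) := Fin.pos_iff_nonempty.1 hl
  have hlR : (0 : ℝ) < l := by exact_mod_cast hl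
  have hLam0 : 0 < Lam := by linarith
  have hnR : (0 : ℝ) < n := by linarith
  -- the events
  obtain ⟨Ev, hEv1, hEv2⟩ : ∃ Ev : ((V × κ) ⊕ J) → (Q → Fin l) → Prop,
      (∀ p ω, Ev (Sum.inl p) ω ↔ (p.1 ∈ U ∧ p.2 ∈ L p.1 ∧
        n * nm U L (confF R p.1 p.2) / l + 3 * Real.sqrt (n / 8 * Lam) ≤
        ∑ t, (if pr t ∈ U then confF R p.1 p.2 (pr t) (e (pr t) (ω t)) else 0))) ∧
      (∀ j ω, Ev (Sum.inr j) ω ↔ (0 < μ j ∧ n * nm U L (T j) / l +
        3 * Real.sqrt ((n * μ j * nm U L (T j) / l + Lam * μ j ^ 2) * Lam) ≤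
        ∑ t, (if pr t ∈ U then T j (pr t) (e (pr t) (ω t)) else 0))) :=
    ⟨fun j ω => Sum.elim (fun p => (p.1 ∈ U ∧ p.2 ∈ L p.1 ∧
        n * nm U L (confF R p.1 p.2) / l + 3 * Real.sqrt (n / 8 * Lam) ≤
        ∑ t, (if pr t ∈ U then confF R p.1 p.2 (pr t) (e (pr t) (ω t)) else 0)))
      (fun j => (0 < μ j ∧ n * nm U L (T j) / l +
        3 * Real.sqrt ((n * μ j * nm U L (T j) / l + Lam * μ j ^ 2) * Lam) ≤
        ∑ t, (if pr t ∈ U then T j (pr t) (e (pr t) (ω t)) else 0))) j,
      fun _ _ => Iff.rfl, fun _ _ => Iff.rfl⟩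
  obtain ⟨Sp, hSp1, hSp2⟩ : ∃ Sp : ((V × κ) ⊕ J) → Finset Q,
      (∀ p t, t ∈ Sp (Sum.inl p) ↔ (p.1 ∈ U ∧ p.2 ∈ L p.1 ∧ nb p.1 (pr t))) ∧
      (∀ j t, t ∈ Sp (Sum.inr j) ↔ nb (ctr j) (pr t)) :=
    ⟨Sum.elim (fun p => univ.filter (fun t => p.1 ∈ U ∧ p.2 ∈ L p.1 ∧ nb p.1 (pr t)))
      (fun j => univ.filter (fun t => nb (ctr j) (pr t))),
      fun p t => by simp only [Sum.elim_inl, mem_filter, mem_univ, true_and],
      fun j t => by simp only [Sum.elim_inr, mem_filter, mem_univ, true_and]⟩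
  obtain ⟨cen, hcen1, hcen2⟩ : ∃ cen : ((V × κ) ⊕ J) → V, (∀ p, cen (Sum.inl p) = p.1) ∧
      (∀ j, cen (Sum.inr j) = ctr j) :=
    ⟨Sum.elim (fun p => p.1) ctr, fun _ => rfl, fun _ => rfl⟩
  have hnm0 : ∀ F : V → κ → ℝ, (∀ w b, 0 ≤ F w b) → 0 ≤ nm U L F := by
    intro F hF
    exact sum_nonneg fun w _ => sum_nonneg fun b _ => hF w b
  -- local lemma
  have hloc : ∀ j (ω ω' : Q → Fin l), (∀ t ∈ Sp j, ω t = ω' t) → Ev j ω → Ev j ω' := by
    intro j ω ω' h
    cases j with
    | inl p =>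
      rw [hEv1, hEv1]
      rintro ⟨hp1, hp2, h3⟩
      refine ⟨hp1, hp2, h3.trans (le_of_eq ?_)⟩
      apply sum_congr rfl
      intro t _
      by_cases hnb : nb p.1 (pr t)
      · rw [h t ((hSp1 p t).2 ⟨hp1, hp2, hnb⟩)]
      · have h4 : ∀ b, confF R p.1 p.2 (pr t) b = 0 := by
          intro b
          unfold confF
          rw [if_neg]
          rintro ⟨_, h5⟩
          exact hnb (hRn _ _ _ _ h5)
        rw [h4, h4]
    | inr j =>
      rw [hEv2, hEv2]
      rintro ⟨hp1, h3⟩
      refine ⟨hp1, h3.trans (le_of_eq ?_)⟩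
      apply sum_congr rfl
      intro t _
      by_cases hnb : nb (ctr j) (pr t)
      · rw [h t ((hSp2 j t).2 hnb)]
      · have h4 : ∀ b, T j (pr t) b = 0 := by
          intro b
          by_contra h5
          exact hnb (hTl _ _ _ h5)
        rw [h4, h4]
  have hprob : ∀ j, ((univ.filter (fun ω => Ev j ω)).card : ℝ) ≤
      Real.exp (-Lam) * Fintype.card (Q → Fin l) := by
    intro j
    cases j with
    | inl p =>
      by_cases hp : p.1 ∈ U ∧ p.2 ∈ L p.1
      · have h1 := samp_bern hB pr n hpr U L l hl e he2 (confF R p.1 p.2) 1 (n / 8) Lam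
          (confF_nonneg R p.1 p.2) (confF_le R p.1 p.2) one_pos hLam0
          (by linarith) (by
            rw [confF_nm]
            have h2 := h8 p.1 hp.1 p.2 hp.2
            have h3 : 8 * ((univ.filter (fun q : V × κ => q.1 ∈ U ∧ q.1 ≠ p.1 ∧ q.2 ∈ L q.1 ∧
              R p.1 p.2 q.1 q.2)).card : ℝ) ≤ l := by exact_mod_cast h2
            nlinarith)
        refine le_trans ?_ h1
        apply Nat.cast_le.2
        apply card_le_card
        intro ω hω
        rw [mem_filter] at hω ⊢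
        exact ⟨mem_univ _, ((hEv1 p ω).1 hω.2).2.2⟩
      · have h1 : (univ.filter (fun ω => Ev (Sum.inl p) ω)) = ∅ := by
          rw [filter_eq_empty_iff]
          intro ω _ h2
          exact hp ⟨((hEv1 p ω).1 h2).1, ((hEv1 p ω).1 h2).2.1⟩
        rw [h1, card_empty, Nat.cast_zero]
        positivity
    | inr j =>
      by_cases hp : 0 < μ j
      · have h0 := hnm0 (T j) (hT0 j)
        have h1 := samp_bern hB pr n hpr U L l hl e he2 (T j) (μ j)
          (n * μ j * nm U L (T j) / l + Lam * μ j ^ 2) Lam (hT0 j) (hT1 j) hp hLam0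
          (le_add_of_nonneg_left (by positivity)) (by
            rw [add_mul, div_mul_cancel₀ _ hlR.ne']
            have : 0 ≤ Lam * μ j ^ 2 * l := by positivity
            linarith)
        refine le_trans ?_ h1
        apply Nat.cast_le.2
        apply card_le_card
        intro ω hω
        rw [mem_filter] at hω ⊢
        exact ⟨mem_univ _, ((hEv2 j ω).1 hω.2).2⟩
      · have h1 : (univ.filter (fun ω => Ev (Sum.inr j) ω)) = ∅ := by
          rw [filter_eq_empty_iff]
          intro ω _ h2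
          exact hp ((hEv2 j ω).1 h2).1
        rw [h1, card_empty, Nat.cast_zero]
        positivity
  -- centres
  have hcenS : ∀ j t, t ∈ Sp j → nb (cen j) (pr t) := by
    intro j t ht
    cases j with
    | inl p =>
      rw [hcen1]
      exact ((hSp1 p t).1 ht).2.2
    | inr j =>
      rw [hcen2]
      exact (hSp2 j t).1 ht
  have hdeg : ∀ j, (univ.filter (fun j' => ∃ t, t ∈ Sp j ∧ t ∈ Sp j')).card ≤
      N ^ 2 * (l + Mu) := by
    intro j
    obtain ⟨C2, hC2⟩ : ∃ C2 : Finset V, C2 = (univ.filter (fun w => nb (cen j) w)).biUnion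
      (fun w => univ.filter (fun v => nb w v)) := ⟨_, rfl⟩
    have hC2c : C2.card ≤ N ^ 2 := by
      calc C2.card ≤ ∑ w ∈ univ.filter (fun w => nb (cen j) w),
            (univ.filter (fun v => nb w v)).card := by rw [hC2]; exact card_biUnion_le
        _ ≤ ∑ w ∈ univ.filter (fun w => nb (cen j) w), N := sum_le_sum fun w _ => hN w
        _ = (univ.filter (fun w => nb (cen j) w)).card * N := by rw [sum_const, smul_eq_mul]
        _ ≤ N * N := Nat.mul_le_mul_right _ (hN _)
        _ = N ^ 2 := by ring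
    obtain ⟨Fi, hFi1, hFi2, hFi3⟩ : ∃ Fi : V → Finset ((V × κ) ⊕ J),
        (∀ v a, v ∈ U → a ∈ L v → Sum.inl (v, a) ∈ Fi v) ∧ (∀ j, Sum.inr j ∈ Fi (ctr j)) ∧
        ∀ v, (Fi v).card ≤ l + Mu := by
      refine ⟨fun v => ((if v ∈ U then (L v).image (fun a => (Sum.inl (v, a) :
          (V × κ) ⊕ J)) else ∅) ∪ (univ.filter (fun j => ctr j = v)).image
            (fun j => (Sum.inr j : (V × κ) ⊕ J))), ?_, ?_, ?_⟩
      · intro v a hv ha
        rw [mem_union]
        left
        simp only [hv, if_true]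
        rw [mem_image]
        exact ⟨a, ha, rfl⟩
      · intro j
        rw [mem_union]
        right
        rw [mem_image]
        exact ⟨j, mem_filter.2 ⟨mem_univ _, rfl⟩, rfl⟩
      · intro v
        refine (card_union_le _ _).trans (Nat.add_le_add ?_ ?_)
        · by_cases hv : v ∈ U
          · simp only [hv, if_true]
            exact card_image_le.trans (hcard v hv).le
          · simp only [hv, if_false, card_empty]
            exact Nat.zero_le _
        · exact card_image_le.trans (hMu v)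
    have hsub : univ.filter (fun j' => ∃ t, t ∈ Sp j ∧ t ∈ Sp j') ⊆ C2.biUnion Fi := by
      intro j' hj'
      obtain ⟨t, ht1, ht2⟩ := (mem_filter.1 hj').2
      have h1 := hcenS j t ht1
      have h2 := hcenS j' t ht2
      rw [mem_biUnion]
      refine ⟨cen j', ?_, ?_⟩
      · rw [hC2, mem_biUnion]
        exact ⟨pr t, mem_filter.2 ⟨mem_univ _, h1⟩, mem_filter.2 ⟨mem_univ _, hns _ _ h2⟩⟩
      · cases j' with
        | inl p =>
          rw [hcen1]
          have h3 := (hSp1 p t).1 ht2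
          exact hFi1 p.1 p.2 h3.1 h3.2.1
        | inr j'' =>
          rw [hcen2]
          exact hFi2 j''
    calc (univ.filter (fun j' => ∃ t, t ∈ Sp j ∧ t ∈ Sp j')).card
        ≤ (C2.biUnion Fi).card := card_le_card hsub
      _ ≤ ∑ v ∈ C2, (Fi v).card := card_biUnion_le
      _ ≤ ∑ v ∈ C2, (l + Mu) := sum_le_sum fun v _ => hFi3 v
      _ = C2.card * (l + Mu) := by rw [sum_const, smul_eq_mul]
      _ ≤ N ^ 2 * (l + Mu) := Nat.mul_le_mul_right _ hC2c
  obtain ⟨ω, hω⟩ := hL Q (Fin l) ((V × κ) ⊕ J) Ev Sp (Real.exp (-Lam))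
    (N ^ 2 * (l + Mu)) hloc hprob hdeg (Real.exp_pos _).le (by
      push_cast
      exact hexp)
  refine ⟨ω, ?_, ?_⟩
  · intro u hu a ha
    have h1 := hω (Sum.inl (u, a))
    rw [hEv1] at h1
    have h2 : ¬ (n * nm U L (confF R u a) / l + 3 * Real.sqrt (n / 8 * Lam) ≤
        ∑ t, (if pr t ∈ U then confF R u a (pr t) (e (pr t) (ω t)) else 0)) :=
      fun h3 => h1 ⟨hu, ha, h3⟩
    rw [not_le] at h2
    refine lt_of_lt_of_le h2 ?_
    rw [confF_nm]
    refine samp_num hn hLam hlR ?_
    have h3 := h8 u hu a ha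
    exact_mod_cast h3
  · intro j hj
    have h1 := hω (Sum.inr j)
    rw [hEv2] at h1
    have h2 : ¬ (n * nm U L (T j) / l +
        3 * Real.sqrt ((n * μ j * nm U L (T j) / l + Lam * μ j ^ 2) * Lam) ≤
        ∑ t, (if pr t ∈ U then T j (pr t) (e (pr t) (ω t)) else 0)) := fun h3 => h1 ⟨hj, h3⟩
    exact (not_le.1 h2).le

/-- sums over the samples, row by row -/
private theorem samp_rows {V κ : Type} [Fintype V] (U : Finset V) (n : ℕ) (F : V → κ → ℝ)
    (cl : V × Fin n → κ) :
    ∑ t : V × Fin n, (if t.1 ∈ U then F t.1 (cl t) else 0) =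
      ∑ w ∈ U, ∑ i : Fin n, F w (cl (w, i)) := by
  rw [Fintype.sum_prod_type]
  have h3 : ∀ w : V, (∑ i' : Fin n, if w ∈ U then F w (cl (w, i')) else 0) =
      if w ∈ U then ∑ i' : Fin n, F w (cl (w, i')) else 0 := by
    intro w
    by_cases hw : w ∈ U
    · simp only [hw, if_true]
    · simp only [hw, if_false, sum_const_zero]
  simp only [h3]
  rw [← sum_filter]
  apply sum_congr _ fun _ _ => rfl
  ext w
  simp

/-- the transversal -/
private theorem samp_trans {V κ : Type} [Fintype V] (U : Finset V) (R : V → κ → V → κ → Prop)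
    (hRs : ∀ u a w b, R u a w b → R w b u a) (n : ℕ) (hn : 4 ≤ n) (hU : U.Nonempty)
    (cl : V × Fin n → κ)
    (hconf : ∀ u ∈ U, ∀ i : Fin n, ∑ w ∈ U, ∑ i' : Fin n, confF R u (cl (u, i)) w (cl (w, i')) <
      (n : ℝ) / 4) :
    ∃ f : V → Fin n, ∀ u ∈ U, ∀ w ∈ U, u ≠ w → ¬ R u (cl (u, f u)) w (cl (w, f w)) := by
  obtain ⟨u0, hu0⟩ := hU
  haveI : Nonempty (Fin n) := Fin.pos_iff_nonempty.1 (by omega)
  let G : SimpleGraph (V × Fin n) :=
    { Adj := fun x y => x.1 ≠ y.1 ∧ R x.1 (cl x) y.1 (cl y)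
      symm := ⟨fun x y h => ⟨h.1.symm, hRs _ _ _ _ h.2⟩⟩
      loopless := ⟨fun x h => h.1 rfl⟩ }
  obtain ⟨f, hf1, hf2⟩ := Pool.Agent.Helper45.Vu.exists_transversal G
      (fun u : V => (univ : Finset (Fin n)).image (fun i => (u, i)))
      (u0, Classical.arbitrary (Fin n)) (n / 4) (by omega) U
      (by
        intro u _
        rw [card_image_of_injective _ (fun i i' h => (Prod.ext_iff.1 h).2), card_univ,
          Fintype.card_fin]
        omega)
      (by
        intro u hu x hx
        obtain ⟨i, _, rfl⟩ := mem_image.1 hx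
        have h1 := hconf u hu i
        have h2 : ((∑ w ∈ U.erase u, (((univ : Finset (Fin n)).image (fun i => (w, i))).filter
            (fun y => G.Adj (u, i) y)).card : ℕ) : ℝ) ≤
            ∑ w ∈ U, ∑ i' : Fin n, confF R u (cl (u, i)) w (cl (w, i')) := by
          push_cast
          refine le_trans ?_ (sum_le_sum_of_subset_of_nonneg (erase_subset u U) ?_)
          · refine sum_le_sum fun w hw => ?_
            have hwu : w ≠ u := (mem_erase.1 hw).1
            have h5 : ((((univ : Finset (Fin n)).image (fun i => (w, i))).filter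
                (fun y => G.Adj (u, i) y)).card : ℝ) ≤
                ((univ.filter (fun i' : Fin n => G.Adj (u, i) (w, i'))).card : ℝ) := by
              apply Nat.cast_le.2
              calc _ ≤ ((univ.filter (fun i' : Fin n => G.Adj (u, i) (w, i'))).image
                    (fun i => (w, i))).card := by
                    apply card_le_card
                    intro y hy
                    obtain ⟨hy1, hy2⟩ := mem_filter.1 hy
                    obtain ⟨i', _, rfl⟩ := mem_image.1 hy1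
                    exact mem_image.2 ⟨i', mem_filter.2 ⟨mem_univ _, hy2⟩, rfl⟩
                _ ≤ _ := card_image_le
            refine h5.trans ?_
            rw [card_filter]
            push_cast
            refine sum_le_sum fun i' _ => ?_
            by_cases hG : G.Adj (u, i) (w, i')
            · rw [if_pos hG]
              unfold confF
              rw [if_pos ⟨hwu, hG.2⟩]
            · rw [if_neg hG]
              exact confF_nonneg _ _ _ _ _
          · intro w _ _
            exact sum_nonneg fun i' _ => confF_nonneg _ _ _ _ _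
        have h6 := lt_of_le_of_lt h2 h1
        rw [lt_div_iff₀ (by norm_num)] at h6
        have h7 : (∑ w ∈ U.erase u, (((univ : Finset (Fin n)).image (fun i => (w, i))).filter
            (fun y => G.Adj (u, i) y)).card) * 4 < n := by exact_mod_cast h6
        omega)
  have hfu : ∀ u ∈ U, (f u).1 = u := by
    intro u hu
    obtain ⟨i, _, hi⟩ := mem_image.1 (hf1 u hu)
    rw [← hi]
  have hfe : ∀ u ∈ U, f u = (u, (f u).2) := by
    intro u hu
    exact Prod.ext (hfu u hu) rfl
  refine ⟨fun u => (f u).2, ?_⟩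
  intro u hu w hw huw hR
  apply hf2 u hu w hw huw
  refine ⟨by rw [hfu u hu, hfu w hw]; exact huw, ?_⟩
  rw [← hfe u hu, ← hfe w hw] at hR
  rw [hfu u hu, hfu w hw]
  exact hR

/-- SAMP -/
theorem thm_Samp (hB : Pool.TCT.St_BernL) (hL : Pool.TCS.St_LLL0) : St_Samp := by
  intro V κ J _ _ _ _ U L R nb l n N Mu Lam ctr T μ hl hcard hRs hRn _ hns hN h8 hT0 hT1 hTl
    hMu hLam hn hexp
  obtain ⟨e, he1, he2⟩ := samp_enum U L l hcard
  have hlR : (0 : ℝ) < l := by exact_mod_cast hl
  have hLam0 : 0 < Lam := by linarith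
  have hn4 : 100 ≤ n := by
    have : (100 : ℝ) ≤ n := by linarith
    exact_mod_cast this
  by_cases hU : U.Nonempty
  · obtain ⟨ω, hω1, hω2⟩ := samp_core hB hL (Prod.fst : V × Fin n → V) n (by
      intro w
      have h1 : univ.filter (fun t : V × Fin n => t.1 = w) =
          (univ : Finset (Fin n)).image (fun i => (w, i)) := by
        ext t
        simp only [mem_filter, mem_univ, true_and, mem_image]
        constructor
        · intro h
          exact ⟨t.2, by rw [← h]⟩
        · rintro ⟨i, rfl⟩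
          rfl
      rw [h1, card_image_of_injective _ (fun i i' h => (Prod.ext_iff.1 h).2), card_univ,
        Fintype.card_fin])
      U L R nb l N Mu Lam ctr T μ hl e he2 hcard hRn hns hN h8 hT0 hT1 hTl hMu hLam hn hexp
    obtain ⟨cl, hcl⟩ : ∃ cl : V × Fin n → κ, ∀ x, cl x = e x.1 (ω x) := ⟨_, fun _ => rfl⟩
    simp only [← hcl] at hω1 hω2
    obtain ⟨f, hf⟩ := samp_trans U R hRs n (by omega) hU cl (by
      intro u hu i
      rw [← samp_rows U n (confF R u (cl (u, i))) cl]
      exact hω1 u hu (cl (u, i)) (by rw [hcl]; exact he1 u hu _))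
    refine ⟨fun u => cl (u, f u), ?_, hf, ?_⟩
    · intro u hu
      simp only [hcl]
      exact he1 u hu _
    · intro j
      obtain ⟨u0, hu0⟩ := hU
      have hmu0 : 0 ≤ μ j := (hT0 j u0 (Classical.arbitrary κ)).trans (hT1 j u0 _)
      have hn0' : 0 ≤ nm U L (T j) := sum_nonneg fun w _ => sum_nonneg fun b _ => hT0 j w b
      rcases hmu0.lt_or_eq with hmu | hmu
      · refine le_trans ?_ (hω2 j hmu)
        rw [samp_rows U n (T j) cl]
        refine sum_le_sum fun w hw => ?_
        exact single_le_sum (f := fun i' => T j w (cl (w, i'))) (fun i _ => hT0 j w _)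
          (mem_univ (f w))
      · have h1 : ∀ w b, T j w b = 0 := fun w b =>
          le_antisymm ((hT1 j w b).trans hmu.symm.le) (hT0 j w b)
        have h2 : ∑ u ∈ U, T j u (cl (u, f u)) = 0 := sum_eq_zero fun u _ => h1 _ _
        rw [h2]
        positivity
  · rw [not_nonempty_iff_eq_empty] at hU
    subst hU
    refine ⟨fun _ => Classical.arbitrary κ, by simp, by simp, ?_⟩
    intro j
    have : nm (∅ : Finset V) L (T j) = 0 := by unfold nm; simp
    rw [this]
    simp only [sum_empty, mul_zero, zero_div, zero_add]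
    positivity

end Pool.TCU
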